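import Pool.Agent.U485.EH.M6

/-!
Least primes in the lifts of prescribed classes: one block of moduli.
-/

set_option autoImplicit false

namespace Pool.Agent.U485.LP

open Finset Filter
open Pool.Agent.U485.EH
open Pool.Agent.H441R3.BV (one_le_log)

/-- the least prime in the class of `a` modulo `n` -/
noncomputable def lp (a n : ℕ) : ℕ := sInf {p : ℕ | p.Prime ∧ p ≡ a [MOD n]}

/-- the proportion of the lifts with a large least prime -/
noncomputable def share (K : ℝ) (n q c : ℕ) : ℝ :=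
  (((cls n q c).filter (fun a => K * n * Real.log n < lp a n)).card : ℝ) / ((cls n q c).card : ℝ)

lemma share_nonneg (K : ℝ) (n q c : ℕ) : 0 ≤ share K n q c := by
  unfold share
  positivity

lemma share_le_one (K : ℝ) (n q c : ℕ) : share K n q c ≤ 1 := by
  unfold share
  apply div_le_one_of_le₀ _ (Nat.cast_nonneg _)
  exact_mod_cast card_filter_le _ _

lemma cls_card (q c m : ℕ) (hq : 1 ≤ q) (hm : 1 ≤ m) (hc : c.Coprime q) :
    (cls (q * m) q c).card * Nat.totient q = Nat.totient (q * m) := by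
  have h := classes_sum 0 q c m hq hm hc (fun _ => 1)
  rw [sum_const, sum_const, nsmul_eq_mul, nsmul_eq_mul, mul_one, mul_one] at h
  have h2 : (cls (q * m) q c).card = ((range m).filter (fun b => (c + q * b).Coprime m)).card := by
    unfold cls
    exact_mod_cast h
  rw [h2]
  exact count_lifts q c m hq hm hc

lemma piA_zero (N n a : ℕ) (h : (N : ℝ) < lp a n) : piA N n a = 0 := by
  unfold piA
  rw [card_eq_zero, filter_eq_empty_iff]
  intro p hp hpp
  rw [mem_Icc] at hp
  have h1 : lp a n ≤ p := Nat.sInf_le hpp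
  have h2 : lp a n ≤ N := h1.trans hp.2
  have h3 : (lp a n : ℝ) ≤ N := by exact_mod_cast h2
  linarith

lemma er_bad (N n a : ℕ) (h : (N : ℝ) < lp a n) : er N n a = (piN N : ℝ) / Nat.totient n := by
  unfold er
  rw [piA_zero N n a h, Nat.cast_zero, zero_sub, abs_neg, abs_of_nonneg (by positivity)]

lemma pt (q c m N : ℕ) (K Z : ℝ) (hq : 1 ≤ q) (hm : 1 ≤ m) (hc : c.Coprime q)
    (hN : (N : ℝ) ≤ K * ((q * m : ℕ) : ℝ) * Real.log ((q * m : ℕ) : ℝ)) (hZ0 : 0 < Z) (hZ : ((q * m : ℕ) : ℝ) ≤ Z) :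
    share K (q * m) q c * ((piN N : ℝ) ^ 2 / Z) ≤
      (Nat.totient q : ℝ) * ∑ b ∈ (range m).filter (fun b => (c + q * b).Coprime m),
        er N (q * m) (c + q * b) ^ 2 := by
  have hqm : 1 ≤ q * m := Nat.mul_pos hq hm
  have hφq : (0 : ℝ) < Nat.totient q := by exact_mod_cast Nat.totient_pos.2 hq
  have hφ : (0 : ℝ) < Nat.totient (q * m) := by exact_mod_cast Nat.totient_pos.2 hqm
  have hcard : ((cls (q * m) q c).card : ℝ) * Nat.totient q = Nat.totient (q * m) := by
    exact_mod_cast cls_card q c m hq hm hc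
  rw [← classes_sum N q c m hq hm hc (fun x => x ^ 2)]
  have h1 : ((((cls (q * m) q c).filter (fun a => K * ((q * m : ℕ) : ℝ) * Real.log ((q * m : ℕ) : ℝ) < lp a (q * m))).card : ℝ) *
      ((piN N : ℝ) / Nat.totient (q * m)) ^ 2) ≤ ∑ a ∈ cls (q * m) q c, er N (q * m) a ^ 2 := by
    rw [← nsmul_eq_mul, ← sum_const]
    calc _ = ∑ a ∈ (cls (q * m) q c).filter (fun a => K * ((q * m : ℕ) : ℝ) * Real.log ((q * m : ℕ) : ℝ) < lp a (q * m)),
          er N (q * m) a ^ 2 := by
          apply sum_congr rfl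
          intro a ha
          rw [mem_filter] at ha
          rw [er_bad N (q * m) a (lt_of_le_of_lt hN ha.2)]
      _ ≤ _ := sum_le_sum_of_subset_of_nonneg (filter_subset _ _) (fun _ _ _ => sq_nonneg _)
  have h2 : share K (q * m) q c * ((piN N : ℝ) ^ 2 / Z) ≤ (Nat.totient q : ℝ) *
      ((((cls (q * m) q c).filter (fun a => K * ((q * m : ℕ) : ℝ) * Real.log ((q * m : ℕ) : ℝ) < lp a (q * m))).card : ℝ) *
      ((piN N : ℝ) / Nat.totient (q * m)) ^ 2) := by
    unfold share
    set s : ℝ := (((cls (q * m) q c).filter (fun a => K * ((q * m : ℕ) : ℝ) * Real.log ((q * m : ℕ) : ℝ) < lp a (q * m))).card : ℝ) with hs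
    have hs0 : 0 ≤ s := Nat.cast_nonneg _
    have hc0 : (0 : ℝ) < (cls (q * m) q c).card := by
      by_contra hcon
      push Not at hcon
      nlinarith
    have e1 : ((cls (q * m) q c).card : ℝ) = Nat.totient (q * m) / Nat.totient q := by
      rw [eq_div_iff hφq.ne']
      exact hcard
    rw [e1]
    have h3 : (Nat.totient (q * m) : ℝ) ≤ Z := by
      refine le_trans ?_ hZ
      exact_mod_cast Nat.totient_le _
    have h4 : (piN N : ℝ) ^ 2 / Z ≤ (piN N : ℝ) ^ 2 / Nat.totient (q * m) :=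
      div_le_div_of_nonneg_left (sq_nonneg _) hφ h3
    calc s / (Nat.totient (q * m) / Nat.totient q) * ((piN N : ℝ) ^ 2 / Z) ≤
        s / (Nat.totient (q * m) / Nat.totient q) * ((piN N : ℝ) ^ 2 / Nat.totient (q * m)) := by gcongr
      _ = _ := by
        field_simp
  refine h2.trans ?_
  apply mul_le_mul_of_nonneg_left _ hφq.le
  exact h1

/-- Chebyshev -/
lemma piN_ge : ∃ x0 : ℕ, 3 ≤ x0 ∧ ∀ N : ℕ, x0 ≤ N → (N : ℝ) / (2 * Real.log N) ≤ piN N := by
  obtain ⟨x0, hx0, h⟩ := ev_sqrt 20 1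
  refine ⟨x0, hx0, fun N hN => ?_⟩
  have hN3 : 3 ≤ N := hx0.trans hN
  have hl := one_le_log hN3
  have h1 := Chebyshev.pi_ge N
  have h2 : Nat.primeCounting N = piN N := by
    unfold piN
    rw [Nat.primeCounting, Nat.primeCounting', Nat.count_eq_card_filter_range]
    congr 1
    ext p
    rw [mem_filter, mem_filter, mem_range, mem_Icc]
    constructor
    · rintro ⟨h1, h2⟩
      exact ⟨⟨h2.one_le, by omega⟩, h2⟩
    · rintro ⟨h1, h2⟩
      exact ⟨by omega, h2⟩
  rw [h2] at h1
  refine le_trans ?_ h1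
  have hNr : (3 : ℝ) ≤ N := by exact_mod_cast hN3
  have h3 : Real.log (N + 1) ≤ 2 * Real.log N := by
    rw [show (2 : ℝ) * Real.log N = Real.log ((N : ℝ) ^ 2) by rw [Real.log_pow]; norm_num]
    apply Real.log_le_log (by linarith)
    nlinarith
  have h4 : 20 * Real.log N ≤ N := by
    have h5 := h N hN
    rw [pow_one] at h5
    have h6 : Real.sqrt N ≤ N := by
      rw [Real.sqrt_le_left (by linarith)]
      nlinarith
    linarith
  have h5 : (0.69 : ℝ) < Real.log 2 := by
    have := Real.log_two_gt_d9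
    linarith
  rw [div_le_div_iff₀ (by linarith) (by linarith)]
  have h6 : (N : ℝ) / 2 ≤ N * Real.log 2 - Real.log (N + 1) := by nlinarith
  nlinarith

end Pool.Agent.U485.LP
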