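import Pool.Agent.U485.LP.A

/-!
Least primes in the lifts of prescribed classes: one block of moduli.
-/

set_option autoImplicit false

namespace Pool.Agent.U485.LP

open Finset Filter
open Pool.Agent.U485.EH
open Pool.Agent.H441R3.BV (one_le_log)

lemma multiples (q Y Z : ℕ) (hq : 1 ≤ q) (G : ℕ → ℝ) :
    ∑ n ∈ (Ioc Y Z).filter (fun n => q ∣ n), G n =
      ∑ m ∈ (Icc 1 (Z / q)).filter (fun m => Y < q * m), G (q * m) := by
  apply sum_nbij' (fun n => n / q) (fun m => q * m)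
  · intro n hn
    rw [mem_filter, mem_Ioc] at hn
    obtain ⟨⟨h1, h2⟩, k, rfl⟩ := hn
    rw [mem_filter, mem_Icc, Nat.mul_div_cancel_left _ (by omega)]
    refine ⟨⟨?_, ?_⟩, h1⟩
    · by_contra hk
      have : k = 0 := by omega
      subst this
      omega
    · rw [Nat.le_div_iff_mul_le (by omega), mul_comm]
      exact h2
  · intro m hm
    rw [mem_filter, mem_Icc] at hm
    rw [mem_filter, mem_Ioc]
    refine ⟨⟨hm.2, ?_⟩, dvd_mul_right _ _⟩
    have := (Nat.le_div_iff_mul_le (by omega)).1 hm.1.2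
    rw [mul_comm]
    exact this
  · intro n hn
    rw [mem_filter] at hn
    exact Nat.mul_div_cancel' hn.2
  · intro m _
    exact Nat.mul_div_cancel_left _ (by omega)
  · intro n hn
    rw [mem_filter] at hn
    rw [Nat.mul_div_cancel' hn.2]

theorem block (A1 A2 : ℕ) : ∃ B : ℕ, ∃ C : ℝ, 0 ≤ C ∧ ∃ y0 : ℕ, 3 ≤ y0 ∧ ∀ Y : ℕ, y0 ≤ Y → ∀ S : Finset ℕ,
    (∀ q ∈ S, 1 ≤ q ∧ (q : ℝ) * Real.log Y ^ B ≤ Real.sqrt Y) → ∀ c : ℕ → ℕ, (∀ q ∈ S, (c q).Coprime q) →
    ∀ K : ℝ, 1 ≤ K → K ≤ Real.log Y ^ A1 →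
    ∑ q ∈ S, ∑ n ∈ (Ioc Y (3 * Y)).filter (fun n => q ∣ n), share K n q (c q) ≤
      C * (Y / K * ∑ q ∈ S, 1 / (q : ℝ) + Y / Real.log Y ^ A2) := by
  classical
  obtain ⟨B0, C1, hC1, x1, hx1, hp⟩ := part1 (A2 + 2)
  obtain ⟨x2, hx2, hpi⟩ := piN_ge
  obtain ⟨x3, hx3, hpow⟩ := ev_nat 1 (A1 + 1) 1 (by norm_num)
  refine ⟨2 * B0, 144 * C1, by positivity, max (max x1 x2) (max x3 ⌈Real.exp 6⌉₊), le_trans hx1
    (le_trans (le_max_left _ _) (le_max_left _ _)), fun Y hY S hS c hc K hK1 hK => ?_⟩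
  have hY1 : x1 ≤ Y := (le_max_left _ _).trans ((le_max_left _ _).trans hY)
  have hY2 : x2 ≤ Y := (le_max_right _ _).trans ((le_max_left _ _).trans hY)
  have hY3 : x3 ≤ Y := (le_max_left _ _).trans ((le_max_right _ _).trans hY)
  have hY4 : Real.exp 6 ≤ Y := by
    have h1 : ⌈Real.exp 6⌉₊ ≤ Y := (le_max_right _ _).trans ((le_max_right _ _).trans hY)
    exact (Nat.le_ceil _).trans (by exact_mod_cast h1)
  have hY0 : (0 : ℝ) < Y := lt_of_lt_of_le (Real.exp_pos 6) hY4
  have hL6 : 6 ≤ Real.log Y := by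
    rw [Real.le_log_iff_exp_le hY0]
    exact hY4
  set L := Real.log Y with hL
  have hL0 : 0 < L := by linarith
  have hK0 : 0 < K := by linarith
  have hKYL : 6 * (Y : ℝ) ≤ K * Y * L := by
    have : (1 : ℝ) * Y * 6 ≤ K * Y * L := by gcongr
    linarith
  have hY3r : (3 : ℝ) ≤ Y := by exact_mod_cast hx1.trans hY1
  set N := ⌊K * Y * L⌋₊ with hN
  have hN1 : (N : ℝ) ≤ K * Y * L := Nat.floor_le (by positivity)
  have hN2 : K * Y * L < (N : ℝ) + 1 := Nat.lt_floor_add_one _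
  have hN3 : K * Y * L / 2 ≤ N := by linarith
  have hN4 : 3 * (Y : ℝ) ≤ N := by linarith
  have hYN : Y ≤ N := by
    have : (Y : ℝ) ≤ N := by linarith
    exact_mod_cast this
  have hN0 : (0 : ℝ) < N := by linarith
  have hlogN1 : L ≤ Real.log N := Real.log_le_log hY0 (by exact_mod_cast hYN)
  have hlogN2 : Real.log N ≤ 2 * L := by
    have h1 : (N : ℝ) ≤ (Y : ℝ) ^ 2 := by
      have h2 := hpow Y hY3
      rw [one_mul, Real.rpow_one] at h2
      calc (N : ℝ) ≤ K * Y * L := hN1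
        _ ≤ L ^ A1 * Y * L := by gcongr
        _ = Y * L ^ (A1 + 1) := by ring
        _ ≤ Y * Y := by gcongr
        _ = _ := by ring
    calc Real.log N ≤ Real.log ((Y : ℝ) ^ 2) := Real.log_le_log hN0 h1
      _ = 2 * L := by
          rw [Real.log_pow, ← hL]
          norm_num
  set LN := Real.log N with hLN
  have hLN0 : 0 < LN := by linarith
  set Q := ⌊Real.sqrt Y / L ^ (2 * B0)⌋₊ with hQ
  have hQ1 : (Q : ℝ) ≤ Real.sqrt Y / L ^ (2 * B0) := Nat.floor_le (by positivity)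
  have hSQ : S ⊆ Icc 1 Q := by
    intro q hq
    rw [mem_Icc]
    refine ⟨(hS q hq).1, ?_⟩
    apply Nat.le_floor
    rw [le_div_iff₀ (by positivity)]
    exact (hS q hq).2
  have hQN : (Q : ℝ) * LN ^ B0 ≤ Real.sqrt N := by
    have h1 : LN ^ B0 ≤ L ^ (2 * B0) := by
      rw [pow_mul]
      apply pow_le_pow_left₀ hLN0.le
      nlinarith
    calc (Q : ℝ) * LN ^ B0 ≤ Real.sqrt Y / L ^ (2 * B0) * L ^ (2 * B0) := by gcongr
      _ = Real.sqrt Y := by field_simp
      _ ≤ Real.sqrt N := Real.sqrt_le_sqrt (by exact_mod_cast hYN)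
  set M : ℕ → ℕ := fun q => if q ∈ S then 3 * Y / q else 0 with hM
  have hMN : ∀ q, M q ≤ N := by
    intro q
    simp only [hM]
    split_ifs
    · have h1 : 3 * Y ≤ N := by
        have : ((3 * Y : ℕ) : ℝ) ≤ N := by push_cast; linarith
        exact_mod_cast this
      exact (Nat.div_le_self _ _).trans h1
    · exact Nat.zero_le _
  have h1 := hp N (hY1.trans hYN) Q hQN M hMN (fun q => if q ∈ S then c q else 1) (fun _ => N)
    (fun q _ => by
      by_cases h : q ∈ S
      · rw [if_pos h]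
        exact hc q h
      · rw [if_neg h]
        exact Nat.coprime_one_left q) (fun _ => le_rfl)
  -- lower bound
  have hpN := hpi N (hY2.trans hYN)
  have hpN0 : (0 : ℝ) < piN N := lt_of_lt_of_le (by positivity) hpN
  set T := ∑ q ∈ S, ∑ n ∈ (Ioc Y (3 * Y)).filter (fun n => q ∣ n), share K n q (c q) with hT
  have h3Y : (0 : ℝ) < 3 * Y := by linarith
  have hlow : T * ((piN N : ℝ) ^ 2 / (3 * Y)) ≤ ∑ q ∈ Icc 1 Q, (Nat.totient q : ℝ) * ∑ m ∈ Icc 1 (M q),
      ∑ b ∈ (range m).filter (fun b => ((if q ∈ S then c q else 1) + q * b).Coprime m),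
        er N (q * m) ((if q ∈ S then c q else 1) + q * b) ^ 2 := by
    rw [hT, sum_mul]
    calc _ ≤ ∑ q ∈ S, (Nat.totient q : ℝ) * ∑ m ∈ Icc 1 (M q),
          ∑ b ∈ (range m).filter (fun b => ((if q ∈ S then c q else 1) + q * b).Coprime m),
          er N (q * m) ((if q ∈ S then c q else 1) + q * b) ^ 2 := by
          apply sum_le_sum
          intro q hq
          have hq1 := (hS q hq).1
          simp only [hM, if_pos hq]
          rw [multiples q Y (3 * Y) hq1, sum_mul, mul_sum]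
          calc _ ≤ ∑ m ∈ (Icc 1 (3 * Y / q)).filter (fun m => Y < q * m), (Nat.totient q : ℝ) *
                ∑ b ∈ (range m).filter (fun b => (c q + q * b).Coprime m), er N (q * m) (c q + q * b) ^ 2 := by
                apply sum_le_sum
                intro m hm
                rw [mem_filter, mem_Icc] at hm
                have hm3 : q * m ≤ 3 * Y := by
                  have := (Nat.le_div_iff_mul_le (by omega)).1 hm.1.2
                  rw [mul_comm]
                  exact this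
                have hYm : (Y : ℝ) ≤ ((q * m : ℕ) : ℝ) := by exact_mod_cast hm.2.le
                apply pt q (c q) m N K (3 * Y) hq1 hm.1.1 (hc q hq) _ h3Y (by exact_mod_cast hm3)
                refine hN1.trans ?_
                have : L ≤ Real.log ((q * m : ℕ) : ℝ) := Real.log_le_log hY0 hYm
                gcongr
            _ ≤ _ := by
                apply sum_le_sum_of_subset_of_nonneg (filter_subset _ _)
                intro m _ _
                exact mul_nonneg (Nat.cast_nonneg _) (sum_nonneg fun _ _ => sq_nonneg _)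
      _ ≤ _ := by
          apply sum_le_sum_of_subset_of_nonneg hSQ
          intro q _ _
          exact mul_nonneg (Nat.cast_nonneg _) (sum_nonneg fun m _ => sum_nonneg fun _ _ => sq_nonneg _)
  have h2 := hlow.trans h1
  -- the sum of M
  set Sg := ∑ q ∈ S, 1 / (q : ℝ) with hSg
  have hSg0 : 0 ≤ Sg := sum_nonneg fun q _ => by positivity
  have hSM : ∑ q ∈ Icc 1 Q, (M q : ℝ) ≤ 3 * Y * Sg := by
    calc ∑ q ∈ Icc 1 Q, (M q : ℝ) = ∑ q ∈ S, (M q : ℝ) := by
          symm
          apply sum_subset hSQ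
          intro q _ hq
          simp only [hM, if_neg hq, Nat.cast_zero]
      _ ≤ ∑ q ∈ S, 3 * (Y : ℝ) * (1 / (q : ℝ)) := by
          apply sum_le_sum
          intro q hq
          simp only [hM, if_pos hq]
          refine Nat.cast_div_le.trans ?_
          push_cast
          rw [mul_one_div]
      _ = 3 * Y * Sg := by rw [← mul_sum]
  have h3 : T * ((N : ℝ) ^ 2 / (4 * LN ^ 2) / (3 * Y)) ≤ C1 * (3 * Y * Sg * N / LN + N ^ 2 / LN ^ (A2 + 2)) := by
    have hT0 : 0 ≤ T := sum_nonneg fun q _ => sum_nonneg fun n _ => share_nonneg _ _ _ _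
    calc T * ((N : ℝ) ^ 2 / (4 * LN ^ 2) / (3 * Y)) ≤ T * ((piN N : ℝ) ^ 2 / (3 * Y)) := by
          have e1 : (N : ℝ) ^ 2 / (4 * LN ^ 2) = ((N : ℝ) / (2 * LN)) ^ 2 := by
            rw [div_pow, mul_pow]
            norm_num
          rw [e1]
          gcongr
      _ ≤ _ := h2
      _ ≤ _ := by gcongr
  have h4 : T ≤ 12 * Y * C1 * (3 * Y * Sg * LN / N + 1 / LN ^ A2) := by
    have e2 : C1 * (3 * Y * Sg * N / LN + N ^ 2 / LN ^ (A2 + 2)) =
        (12 * Y * C1 * (3 * Y * Sg * LN / N + 1 / LN ^ A2)) * ((N : ℝ) ^ 2 / (4 * LN ^ 2) / (3 * Y)) := by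
      rw [pow_add]
      field_simp
      ring
    rw [e2] at h3
    exact le_of_mul_le_mul_right h3 (by positivity)
  refine h4.trans ?_
  have h5 : 3 * Y * Sg * LN / N ≤ 12 * (Sg / K) := by
    rw [div_le_iff₀ hN0]
    calc 3 * Y * Sg * LN ≤ 3 * Y * Sg * (2 * L) := by gcongr
      _ = 12 * (Sg / K) * (K * Y * L / 2) := by field_simp; ring
      _ ≤ 12 * (Sg / K) * N := by gcongr
  have h6 : 1 / LN ^ A2 ≤ 1 / L ^ A2 := by
    apply one_div_le_one_div_of_le (by positivity)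
    exact pow_le_pow_left₀ hL0.le hlogN1 _
  calc 12 * Y * C1 * (3 * Y * Sg * LN / N + 1 / LN ^ A2) ≤ 12 * Y * C1 * (12 * (Sg / K) + 1 / L ^ A2) := by gcongr
    _ = 144 * C1 * (Y / K * Sg) + 12 * C1 * (Y / L ^ A2) := by ring
    _ ≤ 144 * C1 * (Y / K * Sg) + 144 * C1 * (Y / L ^ A2) := by
        have : 0 ≤ (Y : ℝ) / L ^ A2 := by positivity
        nlinarith
    _ = _ := by ring

end Pool.Agent.U485.LP
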