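import Pool.Agent.U485.LP.B

/-!
Least primes in the lifts of prescribed classes: all the moduli.
-/

set_option autoImplicit false

namespace Pool.Agent.U485.LP

open Finset Filter
open Pool.Agent.U485.EH
open Pool.Agent.H441R3.BV (one_le_log)

/-- the sum of the shares -/
noncomputable def TT (S : Finset ℕ) (c : ℕ → ℕ) (K : ℝ) (Z : ℕ) : ℝ :=
  ∑ q ∈ S, ∑ n ∈ (Icc 1 Z).filter (fun n => q ∣ n), share K n q (c q)

lemma TT_triv (S : Finset ℕ) (c : ℕ → ℕ) (K : ℝ) (Z : ℕ) (hS : ∀ q ∈ S, 1 ≤ q) :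
    TT S c K Z ≤ Z * ∑ q ∈ S, 1 / (q : ℝ) := by
  unfold TT
  rw [mul_sum]
  apply sum_le_sum
  intro q hq
  have h1 : ∑ n ∈ (Icc 1 Z).filter (fun n => q ∣ n), share K n q (c q) ≤
      ∑ n ∈ (Icc 1 Z).filter (fun n => q ∣ n), (1 : ℝ) := sum_le_sum fun n _ => share_le_one _ _ _ _
  refine h1.trans ?_
  have h2 := multiples q 0 Z (hS q hq) (fun _ => 1)
  have e1 : Ioc 0 Z = Icc 1 Z := by
    ext n
    rw [mem_Ioc, mem_Icc]
    omega
  rw [e1] at h2
  rw [h2, sum_const, nsmul_eq_mul, mul_one]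
  calc (((Icc 1 (Z / q)).filter (fun m => 0 < q * m)).card : ℝ) ≤ ((Icc 1 (Z / q)).card : ℝ) := by
        exact_mod_cast card_filter_le _ _
    _ = ((Z / q : ℕ) : ℝ) := by rw [Nat.card_Icc, Nat.add_sub_cancel]
    _ ≤ (Z : ℝ) / q := Nat.cast_div_le
    _ = _ := by rw [mul_one_div]

lemma TT_step (S : Finset ℕ) (c : ℕ → ℕ) (K : ℝ) (Z : ℕ) (hZ : 2 ≤ Z) :
    TT S c K Z ≤ TT S c K (Z / 2) +
      ∑ q ∈ S, ∑ n ∈ (Ioc (Z / 2) (3 * (Z / 2))).filter (fun n => q ∣ n), share K n q (c q) := by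
  unfold TT
  rw [← sum_add_distrib]
  apply sum_le_sum
  intro q _
  have hdis : Disjoint ((Icc 1 (Z / 2)).filter (fun n => q ∣ n))
      ((Ioc (Z / 2) (3 * (Z / 2))).filter (fun n => q ∣ n)) := by
    rw [disjoint_left]
    intro n h1 h2
    rw [mem_filter, mem_Icc] at h1
    rw [mem_filter, mem_Ioc] at h2
    omega
  rw [← sum_union hdis]
  apply sum_le_sum_of_subset_of_nonneg
  · intro n hn
    rw [mem_filter, mem_Icc] at hn
    rw [mem_union, mem_filter, mem_Icc, mem_filter, mem_Ioc]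
    by_cases h : n ≤ Z / 2
    · exact Or.inl ⟨⟨hn.1.1, h⟩, hn.2⟩
    · right
      refine ⟨⟨by omega, ?_⟩, hn.2⟩
      have := hn.1.2
      omega
  · intro n _ _
    exact share_nonneg _ _ _ _

theorem final (A : ℕ) : ∃ B : ℕ, ∃ C : ℝ, 0 ≤ C ∧ ∃ X0 : ℕ, 3 ≤ X0 ∧ ∀ X : ℕ, X0 ≤ X → ∀ S : Finset ℕ,
    (∀ q ∈ S, 1 ≤ q ∧ (q : ℝ) * Real.log X ^ B ≤ Real.sqrt X) → ∀ c : ℕ → ℕ, (∀ q ∈ S, (c q).Coprime q) →
    ∀ K : ℝ, 1 ≤ K → K ≤ Real.log X ^ A →
    ∑ q ∈ S, ∑ n ∈ (Icc 1 X).filter (fun n => q ∣ n), share K n q (c q) ≤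
      C * (X / K * ∑ q ∈ S, 1 / (q : ℝ) + X / Real.log X ^ A) := by
  obtain ⟨B1, C1, hC1, y0, hy0, hb⟩ := block (2 * A) A
  obtain ⟨x1, hx1, h4⟩ := ev_sqrt 4 (A + 2)
  refine ⟨B1 + A + 3, 2 ^ A * C1 + 2, by positivity, max (max x1 (y0 * y0)) ⌈Real.exp 4⌉₊,
    hx1.trans ((le_max_left _ _).trans (le_max_left _ _)), fun X hX S hS c hc K hK1 hK => ?_⟩
  have hX1 : x1 ≤ X := (le_max_left _ _).trans ((le_max_left _ _).trans hX)
  have hX2 : y0 * y0 ≤ X := (le_max_right _ _).trans ((le_max_left _ _).trans hX)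
  have hX3 : Real.exp 4 ≤ X := by
    have h1 : ⌈Real.exp 4⌉₊ ≤ X := (le_max_right _ _).trans hX
    exact (Nat.le_ceil _).trans (by exact_mod_cast h1)
  have hXr : (0 : ℝ) < X := lt_of_lt_of_le (Real.exp_pos 4) hX3
  have hL4 : 4 ≤ Real.log X := by
    rw [Real.le_log_iff_exp_le hXr]
    exact hX3
  set L := Real.log X with hL
  have hL0 : 0 < L := by linarith
  have hK0 : 0 < K := by linarith
  have hs0 : 0 < Real.sqrt X := Real.sqrt_pos.2 hXr
  have hss : Real.sqrt X * Real.sqrt X = X := Real.mul_self_sqrt hXr.le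
  have hsy0 : (y0 : ℝ) ≤ Real.sqrt X := by
    apply Real.le_sqrt_of_sq_le
    have : ((y0 * y0 : ℕ) : ℝ) ≤ X := by exact_mod_cast hX2
    push_cast at this
    nlinarith
  have h4X := h4 X hX1
  set Sg := ∑ q ∈ S, 1 / (q : ℝ) with hSg
  have hSg0 : 0 ≤ Sg := sum_nonneg fun q _ => by positivity
  have hSg2 : Sg ≤ 2 * L := by
    have hsub : S ⊆ Icc 1 X := by
      intro q hq
      rw [mem_Icc]
      refine ⟨(hS q hq).1, ?_⟩
      have h1 := (hS q hq).2
      have h2 : (1 : ℝ) ≤ L ^ (B1 + A + 3) := one_le_pow₀ (by linarith)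
      have h3 : (q : ℝ) ≤ Real.sqrt X := by
        have hq0 : (0 : ℝ) ≤ q := Nat.cast_nonneg _
        nlinarith
      have h5 : Real.sqrt X ≤ X := by
        have : 1 ≤ Real.sqrt X := by
          rw [Real.one_le_sqrt]
          have : (1 : ℝ) ≤ Real.exp 4 := Real.one_le_exp (by norm_num)
          linarith
        nlinarith
      exact_mod_cast h3.trans h5
    calc Sg ≤ ∑ q ∈ Icc 1 X, 1 / (q : ℝ) := sum_le_sum_of_subset_of_nonneg hsub fun _ _ _ => by positivity
      _ ≤ 1 + Real.log X := harm X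
      _ ≤ 2 * L := by linarith
  set D : ℝ := C1 * (Sg / K + 2 ^ A / L ^ A) with hD
  have hD0 : 0 ≤ D := by positivity
  have claim : ∀ Z : ℕ, Z ≤ X → TT S c K Z ≤ D * Z + X / L ^ (A + 2) * Sg := by
    intro Z
    induction Z using Nat.strong_induction_on with
    | _ Z ih =>
      intro hZX
      by_cases hZ : (Z : ℝ) ≤ X / L ^ (A + 2)
      · refine (TT_triv S c K Z (fun q hq => (hS q hq).1)).trans ?_
        have h1 : 0 ≤ D * (Z : ℝ) := by positivity
        have h2 : (Z : ℝ) * Sg ≤ X / L ^ (A + 2) * Sg := mul_le_mul_of_nonneg_right hZ hSg0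
        linarith
      · push Not at hZ
        have h5 : 4 * Real.sqrt X ≤ X / L ^ (A + 2) := by
          rw [le_div_iff₀ (by positivity)]
          calc 4 * Real.sqrt X * L ^ (A + 2) = 4 * L ^ (A + 2) * Real.sqrt X := by ring
            _ ≤ Real.sqrt X * Real.sqrt X := mul_le_mul_of_nonneg_right h4X hs0.le
            _ = X := hss
        have hZ2 : 2 ≤ Z := by
          have h6 : (3 : ℝ) ≤ y0 := by exact_mod_cast hy0
          have h7 : (2 : ℝ) ≤ Z := by linarith
          exact_mod_cast h7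
        set Y := Z / 2 with hY
        have hYZ : (Z : ℝ) / 4 ≤ Y := by
          have : Z ≤ 4 * Y := by omega
          have : (Z : ℝ) ≤ 4 * Y := by exact_mod_cast this
          linarith
        have hYX : X / (4 * L ^ (A + 2)) ≤ Y := by
          have e1 : (X : ℝ) / (4 * L ^ (A + 2)) = X / L ^ (A + 2) / 4 := by
            rw [mul_comm, div_mul_eq_div_div]
          rw [e1]
          linarith
        have hYs : Real.sqrt X ≤ Y := by linarith
        have hY0 : (0 : ℝ) < Y := by linarith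
        have hYy0 : y0 ≤ Y := by
          have : (y0 : ℝ) ≤ Y := hsy0.trans hYs
          exact_mod_cast this
        have hYleX : (Y : ℝ) ≤ X := by
          have : Y ≤ X := by omega
          exact_mod_cast this
        have hlY1 : L / 2 ≤ Real.log Y := by
          calc L / 2 = Real.log (Real.sqrt X) := by rw [Real.log_sqrt hXr.le]
            _ ≤ Real.log Y := Real.log_le_log hs0 hYs
        have hlY2 : Real.log Y ≤ L := Real.log_le_log hY0 hYleX
        have hlY0 : 0 < Real.log Y := by linarith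
        have h8 := hb Y hYy0 S (fun q hq => by
            refine ⟨(hS q hq).1, ?_⟩
            have h9 := (hS q hq).2
            have h10 : (q : ℝ) * L ^ B1 ≤ Real.sqrt X / L ^ (A + 3) := by
              rw [le_div_iff₀ (by positivity)]
              calc (q : ℝ) * L ^ B1 * L ^ (A + 3) = q * L ^ (B1 + A + 3) := by ring
                _ ≤ _ := h9
            have h11 : Real.sqrt X / L ^ (A + 3) ≤ Real.sqrt Y := by
              apply Real.le_sqrt_of_sq_le
              refine le_trans ?_ hYX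
              rw [div_pow, Real.sq_sqrt hXr.le]
              apply div_le_div_of_nonneg_left hXr.le (by positivity)
              have e2 : (L ^ (A + 3)) ^ 2 = L ^ (A + 2) * L ^ (A + 4) := by ring
              rw [e2, mul_comm]
              apply mul_le_mul_of_nonneg_left _ (by positivity)
              calc (4 : ℝ) ≤ L := hL4
                _ = L ^ 1 := (pow_one L).symm
                _ ≤ L ^ (A + 4) := pow_le_pow_right₀ (by linarith) (by omega)
            calc (q : ℝ) * Real.log Y ^ B1 ≤ q * L ^ B1 := by gcongr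
              _ ≤ _ := h10.trans h11) c hc K hK1 (by
            refine hK.trans ?_
            rw [pow_mul]
            apply pow_le_pow_left₀ hL0.le
            nlinarith)
        have h12 : C1 * (Y / K * Sg + Y / Real.log Y ^ A) ≤ D * Y := by
          have h13 : 1 / Real.log Y ^ A ≤ 2 ^ A / L ^ A := by
            rw [div_le_div_iff₀ (by positivity) (by positivity), one_mul, ← mul_pow]
            apply pow_le_pow_left₀ hL0.le
            linarith
          calc C1 * (Y / K * Sg + Y / Real.log Y ^ A) = C1 * (Sg / K + 1 / Real.log Y ^ A) * Y := by ring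
            _ ≤ C1 * (Sg / K + 2 ^ A / L ^ A) * Y := by gcongr
            _ = _ := rfl
        have h14 := ih Y (by omega) (by omega)
        have h15 : (2 : ℝ) * Y ≤ Z := by
          have : 2 * Y ≤ Z := by omega
          exact_mod_cast this
        calc TT S c K Z ≤ TT S c K Y + ∑ q ∈ S, ∑ n ∈ (Ioc Y (3 * Y)).filter (fun n => q ∣ n), share K n q (c q) :=
              TT_step S c K Z hZ2
          _ ≤ (D * Y + X / L ^ (A + 2) * Sg) + D * Y := by linarith
          _ = D * (2 * Y) + X / L ^ (A + 2) * Sg := by ring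
          _ ≤ D * Z + X / L ^ (A + 2) * Sg := by gcongr
  have h16 := claim X le_rfl
  have h17 : X / L ^ (A + 2) * Sg ≤ 2 * (X / L ^ A) := by
    calc X / L ^ (A + 2) * Sg ≤ X / L ^ (A + 2) * (2 * L) := by gcongr
      _ = 2 * (X / L ^ A) / L := by
          rw [pow_add]
          field_simp
      _ ≤ 2 * (X / L ^ A) / 1 := by
          apply div_le_div_of_nonneg_left (by positivity) (by norm_num)
          linarith
      _ = _ := by rw [div_one]
  have h18 : (1 : ℝ) ≤ 2 ^ A := one_le_pow₀ (by norm_num)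
  have h19 : 0 ≤ (X : ℝ) / K * Sg := by positivity
  have h20 : 0 ≤ (X : ℝ) / L ^ A := by positivity
  calc TT S c K X ≤ D * X + X / L ^ (A + 2) * Sg := h16
    _ ≤ D * X + 2 * (X / L ^ A) := by linarith
    _ = C1 * (X / K * Sg) + (2 ^ A * C1) * (X / L ^ A) + 2 * (X / L ^ A) := by
        rw [hD]
        ring
    _ ≤ (2 ^ A * C1) * (X / K * Sg) + (2 ^ A * C1) * (X / L ^ A) + 2 * (X / L ^ A) := by
        have : C1 ≤ 2 ^ A * C1 := by nlinarith
        gcongr
    _ ≤ _ := by nlinarith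

end Pool.Agent.U485.LP
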